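import Mathlib

/-! # MP_2b6189_al: the numbers below `5400` -/

set_option autoImplicit false

namespace Pool.Agent.Helper52.P2

/-- split off the smallest prime of a powerful number -/
theorem split_min (N : ℕ) (hN : 1 < N) (hpw : ∀ p : ℕ, p.Prime → p ∣ N → p * p ∣ N) :
    ∃ p k m : ℕ, p.Prime ∧ 2 ≤ k ∧ N = p ^ k * m ∧ ¬ p ∣ m ∧ 0 < m ∧
      (∀ l : ℕ, l.Prime → l ∣ m → p < l) ∧ (∀ l : ℕ, l.Prime → l ∣ m → l * l ∣ m) := by
  have hp : (Nat.minFac N).Prime := Nat.minFac_prime (by omega)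
  have hN0 : N ≠ 0 := by omega
  obtain ⟨k, m, hm, hNm⟩ := Nat.exists_eq_pow_mul_and_not_dvd hN0 (Nat.minFac N) hp.ne_one
  have hm0 : 0 < m := by
    rcases Nat.eq_zero_or_pos m with h | h
    · exact absurd (h ▸ dvd_zero _) hm
    · exact h
  have hcop : ∀ l : ℕ, l.Prime → l ∣ m → l ≠ Nat.minFac N := by
    rintro l hl hlm rfl
    exact hm hlm
  refine ⟨Nat.minFac N, k, m, hp, ?_, hNm, hm, hm0, ?_, ?_⟩
  · have h1 := hpw _ hp (Nat.minFac_dvd N)
    by_contra hk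
    push Not at hk
    have hk' : k = 0 ∨ k = 1 := by omega
    rcases hk' with rfl | rfl
    · apply hm
      have := Nat.minFac_dvd N
      conv_rhs at this => rw [hNm]
      simpa using this
    · conv_rhs at h1 => rw [hNm]
      rw [pow_one] at h1
      exact hm (Nat.dvd_of_mul_dvd_mul_left hp.pos h1)
  · intro l hl hlm
    have h1 : Nat.minFac N ≤ l := Nat.minFac_le_of_dvd hl.two_le
      (by rw [hNm]; exact Dvd.dvd.mul_left hlm _)
    exact lt_of_le_of_ne h1 (Ne.symm (hcop l hl hlm))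
  · intro l hl hlm
    have h1 : l * l ∣ N := hpw l hl (by rw [hNm]; exact Dvd.dvd.mul_left hlm _)
    rw [hNm] at h1
    have h2 : Nat.Coprime (l * l) (Nat.minFac N ^ k) := by
      apply Nat.Coprime.pow_right
      apply Nat.Coprime.mul_left <;>
        exact (Nat.coprime_primes hl hp).2 (hcop l hl hlm)
    exact Nat.Coprime.dvd_of_dvd_mul_left h2 h1

/-- **The numbers below `5400`**: a prime dividing exactly once, or a power of two, or an odd prime power times a prime power, or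
`p ^ 2` times a number with the prime divisors `q, r`, with `p < q ^ 2`, `p < r ^ 2`, `p ^ 2 + p < 2 q r`. -/
theorem arith (n : ℕ) (h1 : 1 < n) (h2 : n < 5400) :
    (∃ p : ℕ, p.Prime ∧ p ∣ n ∧ ¬ p * p ∣ n) ∨ (∃ c : ℕ, n = 2 ^ (c + 1)) ∨
    (∃ p q k m : ℕ, p.Prime ∧ p ≠ 2 ∧ q.Prime ∧ 1 ≤ k ∧ n = p ^ k * m ∧ ¬ p ∣ m ∧
      ∀ l : ℕ, l.Prime → l ∣ m → l = q) ∨
    (∃ p q r m : ℕ, p.Prime ∧ q.Prime ∧ r.Prime ∧ n = p ^ 2 * m ∧ ¬ p ∣ m ∧ q ≠ p ∧ r ≠ p ∧
      q ≠ r ∧ (∀ l : ℕ, l.Prime → l ∣ m → l = q ∨ l = r) ∧ p < q ^ 2 ∧ p < r ^ 2 ∧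
      p ^ 2 + p < 2 * q * r) := by
  by_cases hex : ∃ p : ℕ, p.Prime ∧ p ∣ n ∧ ¬ p * p ∣ n
  · exact Or.inl hex
  right
  push Not at hex
  obtain ⟨p, a, m1, hp, ha, hn, hpm, hm1, hlt1, hpw1⟩ := split_min n h1 hex
  by_cases e1 : m1 = 1
  · subst e1
    by_cases p2 : p = 2
    · left
      refine ⟨a - 1, ?_⟩
      rw [hn, p2, mul_one]
      congr 1
      omega
    · right; left
      refine ⟨p, 2, a, 1, hp, p2, Nat.prime_two, by omega, hn, hpm, fun l hl h => ?_⟩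
      exact absurd (Nat.dvd_one.1 h) hl.ne_one
  obtain ⟨q, b, m2, hq, hb, hm1', hqm, hm2, hlt2, hpw2⟩ := split_min m1 (by omega) hpw1
  have hqm1 : q ∣ m1 := by
    rw [hm1']
    exact Dvd.dvd.mul_right (dvd_pow_self q (by omega)) m2
  have hpq : p < q := hlt1 q hq hqm1
  have hp2 := hp.two_le
  by_cases e2 : m2 = 1
  · subst e2
    right; left
    refine ⟨q, p, b, p ^ a, hq, by omega, hp, by omega, by rw [hn, hm1']; ring, ?_, ?_⟩
    · intro h
      have := (Nat.prime_dvd_prime_iff_eq hq hp).1 (hq.dvd_of_dvd_pow h)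
      omega
    · intro l hl h
      exact (Nat.prime_dvd_prime_iff_eq hl hp).1 (hl.dvd_of_dvd_pow h)
  obtain ⟨r, c, m3, hr, hc, hm2', hrm, hm3, hlt3, hpw3⟩ := split_min m2 (by omega) hpw2
  have hrm2 : r ∣ m2 := by
    rw [hm2']
    exact Dvd.dvd.mul_right (dvd_pow_self r (by omega)) m3
  have hqr : q < r := hlt2 r hr hrm2
  have hpa : p ^ 2 ≤ p ^ a := Nat.pow_le_pow_right hp.pos ha
  have hqb : q ^ 2 ≤ q ^ b := Nat.pow_le_pow_right hq.pos hb
  have hrc : r ^ 2 ≤ r ^ c := Nat.pow_le_pow_right hr.pos hc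
  have hn' : n = p ^ a * (q ^ b * (r ^ c * m3)) := by rw [hn, hm1', hm2']
  have e3 : m3 = 1 := by
    by_contra e3
    have h4 : 3 ^ 2 ≤ q ^ 2 := Nat.pow_le_pow_left (by omega) 2
    have h5 : 4 ^ 2 ≤ r ^ 2 := Nat.pow_le_pow_left (by omega) 2
    have h3 : 2 ^ 2 ≤ p ^ 2 := Nat.pow_le_pow_left (by omega) 2
    have h6 : 25 ≤ m3 := by
      have hs := Nat.minFac_prime e3
      have h7 : r < Nat.minFac m3 := hlt3 _ hs (Nat.minFac_dvd m3)
      have h8 := Nat.le_of_dvd hm3 (hpw3 _ hs (Nat.minFac_dvd m3))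
      have h9 : 5 * 5 ≤ Nat.minFac m3 * Nat.minFac m3 := Nat.mul_le_mul (by omega) (by omega)
      omega
    have h10 : 2 ^ 2 * (3 ^ 2 * (4 ^ 2 * 25)) ≤ p ^ a * (q ^ b * (r ^ c * m3)) :=
      Nat.mul_le_mul (h3.trans hpa) (Nat.mul_le_mul (h4.trans hqb)
        (Nat.mul_le_mul (h5.trans hrc) h6))
    rw [← hn'] at h10
    norm_num at h10
    omega
  subst e3
  rw [mul_one] at hn'
  have hlow : ∀ x y z : ℕ, x ≤ p ^ a → y ≤ q ^ b → z ≤ r ^ c → x * (y * z) < 5400 := by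
    intro x y z hx hy hz
    have h3 : x * (y * z) ≤ p ^ a * (q ^ b * r ^ c) := Nat.mul_le_mul hx (Nat.mul_le_mul hy hz)
    omega
  -- `p = 2`
  have p2 : p = 2 := by
    by_contra h3
    have h4 : 4 ≤ q := by omega
    have h5 : q ≠ 4 := by rintro rfl; exact absurd hq (by norm_num)
    have h6 : 6 ≤ r := by omega
    have h7 := hlow (3 ^ 2) (5 ^ 2) (6 ^ 2)
      ((Nat.pow_le_pow_left (show 3 ≤ p by omega) 2).trans hpa)
      ((Nat.pow_le_pow_left (show 5 ≤ q by omega) 2).trans hqb)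
      ((Nat.pow_le_pow_left (show 6 ≤ r by omega) 2).trans hrc)
    norm_num at h7
  subst p2
  have q5 : q ≤ 5 := by
    by_contra h3
    have h7 := hlow (2 ^ 2) (6 ^ 2) (7 ^ 2) hpa
      ((Nat.pow_le_pow_left (show 6 ≤ q by omega) 2).trans hqb)
      ((Nat.pow_le_pow_left (show 7 ≤ r by omega) 2).trans hrc)
    norm_num at h7
  have q4 : q ≠ 4 := by rintro rfl; exact absurd hq (by norm_num)
  have r4 : r ≠ 4 := by rintro rfl; exact absurd hr (by norm_num)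
  have r6 : r ≠ 6 := by rintro rfl; exact absurd hr (by norm_num)
  have hq3 : 3 ^ 2 ≤ q ^ 2 := Nat.pow_le_pow_left (by omega) 2
  have hr5 : 5 ^ 2 ≤ r ^ 2 := Nat.pow_le_pow_left (by omega) 2
  have hrl : ∀ l : ℕ, l.Prime → l ∣ r ^ c → l = r := fun l hl h =>
    (Nat.prime_dvd_prime_iff_eq hl hr).1 (hl.dvd_of_dvd_pow h)
  have hql : ∀ l : ℕ, l.Prime → l ∣ q ^ b → l = q := fun l hl h =>
    (Nat.prime_dvd_prime_iff_eq hl hq).1 (hl.dvd_of_dvd_pow h)
  have h2l : ∀ l : ℕ, l.Prime → l ∣ 2 ^ a → l = 2 := fun l hl h =>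
    (Nat.prime_dvd_prime_iff_eq hl Nat.prime_two).1 (hl.dvd_of_dvd_pow h)
  right; right
  by_cases a2 : a = 2
  · subst a2
    refine ⟨2, q, r, m1, Nat.prime_two, hq, hr, hn, hpm, by omega, by omega, by omega, ?_, by omega,
      by omega, ?_⟩
    · intro l hl h
      rw [hm1', hm2', mul_one] at h
      rcases (Nat.Prime.dvd_mul hl).1 h with h | h
      · exact Or.inl (hql l hl h)
      · exact Or.inr (hrl l hl h)
    · have : 3 * 5 ≤ q * r := Nat.mul_le_mul (by omega) (by omega)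
      nlinarith
  have a3 : 2 ^ 3 ≤ 2 ^ a := Nat.pow_le_pow_right (by norm_num) (by omega)
  have q3 : q = 3 := by
    by_contra h3
    have h7 := hlow (2 ^ 3) (5 ^ 2) (6 ^ 2) a3
      ((Nat.pow_le_pow_left (show 5 ≤ q by omega) 2).trans hqb)
      ((Nat.pow_le_pow_left (show 6 ≤ r by omega) 2).trans hrc)
    norm_num at h7
  subst q3
  have b2 : b = 2 := by
    by_contra h3
    have h7 := hlow (2 ^ 3) (3 ^ 3) (5 ^ 2) a3 (Nat.pow_le_pow_right (by norm_num) (by omega))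
      (hr5.trans hrc)
    norm_num at h7
  subst b2
  refine ⟨3, 2, r, 2 ^ a * r ^ c, hq, Nat.prime_two, hr, by rw [hn']; ring, ?_, by norm_num,
    by omega, by omega, ?_, by norm_num, by omega, by omega⟩
  · intro h
    rcases (Nat.Prime.dvd_mul hq).1 h with h | h
    · exact absurd (h2l 3 hq h) (by norm_num)
    · exact absurd (hrl 3 hq h) (by omega)
  · intro l hl h
    rcases (Nat.Prime.dvd_mul hl).1 h with h | h
    · exact Or.inl (h2l l hl h)
    · exact Or.inr (hrl l hl h)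

end Pool.Agent.Helper52.P2
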