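import Pool.Agent.Helper89.P2.Defs

/-!
# MP_2b6189_al: the context of the modules `XA, XB, XC, XE` for a prime power `P = p ^ k` exactly dividing `n`
-/

set_option autoImplicit false

namespace Pool.Agent.Helper52.P2

open Matrix ComplexConjugate Pool.Agent.Helper94.YF Pool.Agent.Helper94.YG
open Pool.Agent.Helper89.OS hiding PD Cx Blk B0 Orb StXA StXB StXC StXE StCGR StISO StBLK StAMG StHEC StSTL StMZZ StDRE StTSU

/-- the context of the modules `XA, XB, XC, XE` (`n = P m`) -/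
structure CxK {I : Type} [Fintype I] [DecidableEq I] (Z : CentreData I) (p a P m : ℕ) (b : ZMod Z.L)
    (j : ZMod (p ^ a) → ZMod Z.L) (tu : (ZMod (p ^ a))ˣ → (ZMod Z.L)ˣ)
    (Pi : (ZMod Z.L)ˣ → I → I) (y z : I → ℤ) : Prop where
  prime : p.Prime
  P_pos : 0 < P
  a_pos : 1 ≤ a
  n_eq : Z.n = P * m
  idp : Idp Z.L p a b
  jh : JH Z.L (p ^ a) b j
  tu_val : ∀ w, (tu w : ZMod Z.L) = (1 - b) + j w
  tu_mul : ∀ w w', tu (w * w') = tu w * tu w'
  prm : ∀ c i k, Z.rho (Dg c) i k = if k = Pi c i then 1 else 0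
  yy : ∀ i, (y i : ℂ) = (P : ℂ) * Z.rho (s2 b) i Z.o
  zz : ∀ i, (z i : ℂ) = (m : ℂ) * Z.rho (s2 (1 - b)) i Z.o

end Pool.Agent.Helper52.P2
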