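import Pool.Agent.Helper52.P2.CxK

/-! # Project OS (MP_2b6189_al), module XB: the matrix `s = p rho (s2 b)` -/

set_option autoImplicit false

namespace Pool.Agent.Helper52.P2.XB

open Matrix ComplexConjugate Pool.Agent.Helper94.YF Pool.Agent.Helper94.YG
open Pool.Agent.Helper89.OS hiding PD Cx Blk B0 Orb StXA StXB StXC StXE StCGR StISO StBLK StAMG StHEC StSTL StMZZ StDRE StTSU
open Pool.Agent.Helper52.P2

/-- module `XB` for `P` -/
def StXB : Prop := StFUS → StDUA → StGRP → StENT →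
  ∀ (I : Type) [Fintype I] [DecidableEq I] (Z : CentreData I) (p a P m : ℕ) (b : ZMod Z.L)
  (j : ZMod (p ^ a) → ZMod Z.L) (tu : (ZMod (p ^ a))ˣ → (ZMod Z.L)ˣ) (Pi : (ZMod Z.L)ˣ → I → I)
  (y z : I → ℤ), CxK Z p a P m b j tu Pi y z →
  (∀ i k, (P : ℂ) * Z.rho (s2 b) i k = (P : ℂ) * Z.rho (s2 b) k i) ∧
  (∀ i k, IsIntegral ℤ ((P : ℂ) * Z.rho (s2 b) i k)) ∧
  (∀ i k, ∑ l, (P : ℂ) * Z.rho (s2 b) i l * conj ((P : ℂ) * Z.rho (s2 b) k l) =
    if i = k then (P : ℂ) ^ 2 else 0) ∧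
  (∀ i, ∑ k, (P : ℂ) * Z.rho (s2 b) i k * (Z.d k : ℂ) = (P : ℂ) ^ 2 * z i) ∧
  (∀ i, ∑ k, (P : ℂ) * Z.rho (s2 b) i k * (z k : ℂ) = Z.d i)

theorem hXB : StXB := by
  intro hFUS hDUA hGRP hENT I _ _ Z p a P m b j tu Pi y z hc
  obtain ⟨g1, -, g3, -, -, -, -, -, g9, -, -, -, -⟩ :=
    hGRP Z.L (p ^ a) b j tu hc.idp.idem hc.jh hc.tu_val hc.tu_mul
  obtain ⟨e1, e2⟩ := hENT hFUS hDUA I Z.toCentreRep b
  have hn0 : (Z.n : ℂ) ≠ 0 := by
    have := Z.n_pos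
    exact_mod_cast this.ne'
  have hn : (Z.n : ℂ) = (P : ℂ) * m := by
    rw [hc.n_eq]; push_cast; ring
  have hmul : ∀ (g g' : SL Z.L) (i k : I),
      ∑ l, Z.rho g i l * Z.rho g' l k = Z.rho (g * g') i k := by
    intro g g' i k
    rw [map_mul, Matrix.mul_apply]
  have hd : ∀ i, (Z.d i : ℂ) = (Z.n : ℂ) * Z.rho Sm i Z.o := by
    intro i
    rw [Z.s_symm i Z.o, Z.s_o]
    field_simp
  refine ⟨fun i k => by rw [e1 i k], fun i k => (e2 P y hc.yy i k).1, ?_, ?_, ?_⟩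
  · intro i k
    have hu : Z.rho (s2 b) * (Z.rho (s2 b))ᴴ = 1 :=
      mul_eq_one_comm.mp (Z.unitary _)
    have h1 := congrFun (congrFun hu i) k
    rw [Matrix.mul_apply, Matrix.one_apply] at h1
    have h2 : ∑ l, (P : ℂ) * Z.rho (s2 b) i l * conj ((P : ℂ) * Z.rho (s2 b) k l) =
        (P : ℂ) ^ 2 * ∑ l, Z.rho (s2 b) i l * (Z.rho (s2 b))ᴴ l k := by
      rw [Finset.mul_sum]
      refine Finset.sum_congr rfl fun l _ => ?_
      rw [map_mul, Complex.conj_natCast, Matrix.conjTranspose_apply]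
      simp only [Complex.star_def]
      ring
    rw [h2, h1]
    split_ifs <;> ring
  · intro i
    have h1 : ∑ k, (P : ℂ) * Z.rho (s2 b) i k * (Z.d k : ℂ) =
        (P : ℂ) * Z.n * ∑ k, Z.rho (s2 b) i k * Z.rho Sm k Z.o := by
      rw [Finset.mul_sum]
      refine Finset.sum_congr rfl fun k _ => ?_
      rw [hd k]; ring
    have h2 : (s2 b * Sm : SL Z.L) = s2 (1 - b) * Dg (tu (-1)) := by
      rw [← g1, ← mul_assoc, g3, g9]
    have h3 : Z.rho (s2 (1 - b) * Dg (tu (-1))) i Z.o = Z.rho (s2 (1 - b)) i Z.o := by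
      rw [← hmul]
      rw [Finset.sum_eq_single Z.o]
      · rw [Z.borel, if_pos rfl, mul_one]
      · intro k _ hk
        rw [Z.borel, if_neg hk, mul_zero]
      · intro h
        exact absurd (Finset.mem_univ _) h
    rw [h1, hmul, h2, h3, hc.zz i, hn]
    ring
  · intro i
    have h1 : ∑ k, (P : ℂ) * Z.rho (s2 b) i k * (z k : ℂ) =
        (P : ℂ) * m * ∑ k, Z.rho (s2 b) i k * Z.rho (s2 (1 - b)) k Z.o := by
      rw [Finset.mul_sum]
      refine Finset.sum_congr rfl fun k _ => ?_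
      rw [hc.zz k]; ring
    rw [h1, hmul, g1, hd i, hn]

end Pool.Agent.Helper52.P2.XB
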