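import Pool.Agent.Helper52.P2.CxK

/-!
# Project OS (MP_2b6189_al), module XE: the fusion ring
-/

set_option autoImplicit false

namespace Pool.Agent.Helper52.P2.XE

open Matrix ComplexConjugate Pool.Agent.Helper94.YF Pool.Agent.Helper94.YG
open Pool.Agent.Helper89.OS hiding PD Cx Blk B0 Orb StXA StXB StXC StXE StCGR StISO StBLK StAMG StHEC StSTL StMZZ StDRE StTSU
open Pool.Agent.Helper52.P2

section

variable {I : Type} [Fintype I] [DecidableEq I]

lemma xe_so_ne (Z : CentreRep I) (t : I) : Z.rho Sm Z.o t ≠ 0 := by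
  rw [Z.s_o]
  have h1 : (Z.d t : ℂ) ≠ 0 := Nat.cast_ne_zero.2 (Z.d_pos t).ne'
  have h2 : (Z.n : ℂ) ≠ 0 := Nat.cast_ne_zero.2 Z.n_pos.ne'
  exact div_ne_zero h1 h2

lemma xe_so_conj (Z : CentreRep I) (t : I) :
    conj (Z.rho Sm Z.o t) = Z.rho Sm Z.o t := by
  rw [Z.s_o]
  simp

lemma xe_nu_mul (Z : CentreRep I) (t V j : I) :
    (Z.rho Sm V t / Z.rho Sm Z.o t) * Z.rho Sm j t = ∑ k, (Z.N V j k : ℂ) * Z.rho Sm k t := by
  have h0 := xe_so_ne Z t
  have hv := Z.verlinde V j t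
  rw [div_mul_eq_mul_div, hv, mul_div_assoc, mul_comm, div_mul_cancel₀ _ h0]

lemma xe_nu_int (Z : CentreRep I) (t V : I) :
    IsIntegral ℤ (Z.rho Sm V t / Z.rho Sm Z.o t) := by
  have h0 := xe_so_ne Z t
  refine isIntegral_of_smul_mem_submodule (M := ℂ)
    (Submodule.span ℤ (Set.range fun j => Z.rho Sm j t)) ?_
    (Submodule.fg_span (Set.finite_range _)) _ ?_
  · intro h
    rw [Submodule.span_eq_bot] at h
    exact h0 (h _ ⟨Z.o, rfl⟩)
  · intro x hx
    induction hx using Submodule.span_induction with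
    | mem x hx =>
      obtain ⟨j, rfl⟩ := hx
      simp only [smul_eq_mul]
      rw [xe_nu_mul]
      refine Submodule.sum_mem _ fun k _ => ?_
      have : (Z.N V j k : ℂ) * Z.rho Sm k t = ((Z.N V j k : ℤ)) • Z.rho Sm k t := by
        rw [zsmul_eq_mul]; simp
      rw [this]
      exact Submodule.smul_mem _ _ (Submodule.subset_span ⟨k, rfl⟩)
    | zero => simp
    | add x y _ _ hx hy => rw [smul_add]; exact Submodule.add_mem _ hx hy
    | smul n x _ hx =>
      rw [smul_comm]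
      exact Submodule.smul_mem _ _ hx

lemma xe_conj_int {z : ℂ} (h : IsIntegral ℤ (conj z)) : IsIntegral ℤ z := by
  have := h.map (starRingEnd ℂ).toIntAlgHom
  simpa using this

lemma xe_uni' (Z : CentreRep I) (g : SL Z.L) : Z.rho g * (Z.rho g)ᴴ = 1 :=
  mul_eq_one_comm.mp (Z.unitary g)

end

/-- module `XE` for `P` -/
def StXE : Prop := StFUS → StDUA → StGRP → StENT →
  ∀ (I : Type) [Fintype I] [DecidableEq I] (Z : CentreData I) (p a P m : ℕ) (b : ZMod Z.L)
  (j : ZMod (p ^ a) → ZMod Z.L) (tu : (ZMod (p ^ a))ˣ → (ZMod Z.L)ˣ) (Pi : (ZMod Z.L)ˣ → I → I)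
  (y z : I → ℤ), CxK Z p a P m b j tu Pi y z →
  (∀ i k, IsIntegral ℤ (Cchi Z i k)) ∧ (∀ i, Cchi Z i Z.o = 1) ∧ (∀ k, Cchi Z Z.o k = Z.d k) ∧
  (∀ i k l, Cchi Z i k * Cchi Z i l = ∑ v, (Z.N k l v : ℂ) * Cchi Z i v) ∧
  (∃ w : I → I → ℂ, (∀ i k, IsIntegral ℤ (w i k)) ∧ ∀ i l,
    (m : ℂ) ^ 2 * ((P : ℂ) * Z.rho (s2 b) l i) = (Z.d l : ℂ) * ∑ k, w i k * Cchi Z l k) ∧
  (∀ k i i', IsIntegral ℤ ((m : ℂ) ^ 2 / (P : ℂ) ^ 2 * ∑ l, conj ((P : ℂ) * Z.rho (s2 b) l i) *
    Cchi Z l k * ((P : ℂ) * Z.rho (s2 b) l i'))) ∧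
  (∀ E : I → ℂ, (∀ i, ∑ k, (P : ℂ) * Z.rho (s2 b) i k * E k = (P : ℂ) * E i) →
    (∀ k, E k ≠ 0 → Z.tw b k = 1) → ∀ l, Z.tw b l ≠ 1 → ∑ k, E k * Cchi Z l k = 0)

/-- **OS MODULE XE** -/
theorem hXE : StXE := by
  intro hFUS hDUA hGRP hENT I _ _ Z p a P m b j tu Pi y z hC
  have hbb : b * b = b := hC.idp.idem
  obtain ⟨g1, g2, -, -, -, g6, -⟩ := hGRP Z.L (p ^ a) b j tu hbb hC.jh hC.tu_val hC.tu_mul
  obtain ⟨hUd, -⟩ := hFUS hDUA I Z.toCentreRep
  obtain ⟨hBs, -⟩ := hENT hFUS hDUA I Z.toCentreRep b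
  obtain ⟨hAs, hAint⟩ := hENT hFUS hDUA I Z.toCentreRep (1 - b)
  have hAi := hAint m z hC.zz
  have hn : (Z.n : ℂ) = (P : ℂ) * m := by rw [hC.n_eq]; push_cast; rfl
  have hn0 : (Z.n : ℂ) ≠ 0 := Nat.cast_ne_zero.2 Z.n_pos.ne'
  have hp0 : (P : ℂ) ≠ 0 := Nat.cast_ne_zero.2 hC.P_pos.ne'
  have hd0 : ∀ l, (Z.d l : ℂ) ≠ 0 := fun l => Nat.cast_ne_zero.2 (Z.d_pos l).ne'
  have hS0 : ∀ l, Z.rho Sm Z.o l ≠ 0 := fun l => xe_so_ne Z.toCentreRep l
  obtain ⟨A, hA⟩ : ∃ A : Matrix I I ℂ, A = Z.rho (s2 (1 - b)) := ⟨_, rfl⟩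
  obtain ⟨B, hB⟩ : ∃ B : Matrix I I ℂ, B = Z.rho (s2 b) := ⟨_, rfl⟩
  have hSAB : Z.rho Sm = A * B := by rw [hA, hB, ← map_mul, g2]
  have hAA : Aᴴ * A = 1 := by rw [hA]; exact Z.unitary _
  have hBB : B * Bᴴ = 1 := by rw [hB]; exact xe_uni' Z.toCentreRep _
  have hSS : (Z.rho Sm)ᴴ * Z.rho Sm = 1 := Z.unitary _
  have hAS : Aᴴ * Z.rho Sm = B := by rw [hSAB, ← Matrix.mul_assoc, hAA, Matrix.one_mul]
  have hSB : Z.rho Sm * Bᴴ = A := by rw [hSAB, Matrix.mul_assoc, hBB, Matrix.mul_one]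
  rw [← hB] at hBs
  rw [← hA] at hAs hAi
  refine ⟨?_, ?_, ?_, ?_, ?_, ?_, ?_⟩
  · intro i k
    exact xe_nu_int Z.toCentreRep i k
  · intro i
    exact div_self (hS0 i)
  · intro k
    unfold Cchi
    rw [Z.s_symm k Z.o, Z.s_o, Z.s_o, Z.d_o]
    field_simp
    simp
  · intro i k l
    unfold Cchi
    have h := Z.verlinde k l i
    have h1 : ∑ v, (Z.N k l v : ℂ) * (Z.rho Sm v i / Z.rho Sm Z.o i)
        = (∑ v, (Z.N k l v : ℂ) * Z.rho Sm v i) / Z.rho Sm Z.o i := by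
      rw [Finset.sum_div]
      exact Finset.sum_congr rfl fun v _ => by rw [mul_div_assoc]
    rw [h1, div_mul_div_comm, h, mul_div_mul_left _ _ (hS0 i)]
  · refine ⟨fun i k => (m : ℂ) * conj (A k i), fun i k => (hAi k i).2, ?_⟩
    intro i l
    have h1 : ∑ k, (m : ℂ) * conj (A k i) * Cchi Z l k = (m : ℂ) / Z.rho Sm Z.o l * B i l := by
      have h2 : B i l = ∑ k, conj (A k i) * Z.rho Sm k l := by
        conv_lhs => rw [← hAS]
        rw [Matrix.mul_apply]
        exact Finset.sum_congr rfl fun k _ => by rw [Matrix.conjTranspose_apply]; rfl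
      rw [h2, Finset.mul_sum]
      refine Finset.sum_congr rfl fun k _ => ?_
      unfold Cchi
      field_simp
    rw [h1, ← hB, hBs l i, Z.s_o, hn]
    have := hd0 l
    have hm : (P : ℂ) * m ≠ 0 := by rw [← hn]; exact hn0
    field_simp
  · intro k i i'
    refine xe_conj_int ?_
    -- the matrix with natural entries
    obtain ⟨N', hN'⟩ : ∃ N' : Matrix I I ℂ,
        N' = Matrix.of fun u v => (Z.N u (Z.st k) v : ℂ) := ⟨_, rfl⟩
    obtain ⟨D, hD⟩ : ∃ D : Matrix I I ℂ, D = Matrix.diagonal fun l => Cchi Z l (Z.st k) := ⟨_, rfl⟩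
    have hSD : Z.rho Sm * D = N' * Z.rho Sm := by
      ext u l
      rw [hD, Matrix.mul_diagonal, hN', Matrix.mul_apply]
      simp only [Matrix.of_apply]
      unfold Cchi
      have h := Z.verlinde u (Z.st k) l
      rw [← mul_div_assoc, h, mul_div_assoc, mul_comm, div_mul_cancel₀ _ (hS0 l)]
    have hDS : D = (Z.rho Sm)ᴴ * N' * Z.rho Sm := by
      rw [Matrix.mul_assoc, ← hSD, ← Matrix.mul_assoc, hSS, Matrix.one_mul]
    have hBS : B * (Z.rho Sm)ᴴ = Aᴴ := by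
      rw [← hSB, Matrix.conjTranspose_mul, Matrix.conjTranspose_conjTranspose]
    have hBDB : B * D * Bᴴ = Aᴴ * N' * A := by
      calc B * D * Bᴴ = (B * (Z.rho Sm)ᴴ) * N' * (Z.rho Sm * Bᴴ) := by
            rw [hDS]; simp only [Matrix.mul_assoc]
        _ = _ := by rw [hBS, hSB]
    have hcc : ∀ l, conj (Cchi Z l k) = Cchi Z l (Z.st k) := by
      intro l
      unfold Cchi
      rw [map_div₀, Z.s_dual k l]
      congr 1
      exact xe_so_conj Z.toCentreRep l
    have hnum : conj ((m : ℂ) ^ 2 / (P : ℂ) ^ 2 * ∑ l, conj ((P : ℂ) * Z.rho (s2 b) l i) *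
        Cchi Z l k * ((P : ℂ) * Z.rho (s2 b) l i')) = (m : ℂ) ^ 2 * (B * D * Bᴴ) i i' := by
      have h1 : (B * D * Bᴴ) i i' = ∑ l, B l i * Cchi Z l (Z.st k) * conj (B l i') := by
        rw [Matrix.mul_apply]
        refine Finset.sum_congr rfl fun l _ => ?_
        rw [hD, Matrix.mul_diagonal, Matrix.conjTranspose_apply, hBs i l, hBs i' l]
        rfl
      rw [h1, ← hB, map_mul, map_sum, Finset.mul_sum, Finset.mul_sum]
      refine Finset.sum_congr rfl fun l _ => ?_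
      simp only [map_mul, map_div₀, map_pow, Complex.conj_natCast, Complex.conj_conj, hcc]
      field_simp
    rw [hnum, hBDB]
    have h2 : (m : ℂ) ^ 2 * (Aᴴ * N' * A) i i' =
        ∑ v, (∑ u, (m : ℂ) * conj (A u i) * (Z.N u (Z.st k) v : ℂ)) * ((m : ℂ) * A v i') := by
      rw [Matrix.mul_apply, Finset.mul_sum]
      refine Finset.sum_congr rfl fun v _ => ?_
      rw [Matrix.mul_apply, Finset.sum_mul, Finset.mul_sum, Finset.sum_mul]
      refine Finset.sum_congr rfl fun u _ => ?_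
      rw [Matrix.conjTranspose_apply, hN']
      have : star (A u i) = conj (A u i) := rfl
      rw [this, Matrix.of_apply]
      ring
    rw [h2]
    refine IsIntegral.sum _ fun v _ => IsIntegral.mul (IsIntegral.sum _ fun u _ =>
      IsIntegral.mul (hAi u i).2 ?_) (hAi v i').1
    have h3 : IsIntegral ℤ (algebraMap ℤ ℂ ((Z.N u (Z.st k) v : ℕ) : ℤ)) :=
      isIntegral_algebraMap
    simpa using h3
  · intro E hE hEt l hl
    have hBE : ∀ i, ∑ k, B i k * E k = E i := by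
      intro i
      have h := hE i
      rw [← hB] at h
      have h1 : ∑ k, (P : ℂ) * B i k * E k = (P : ℂ) * ∑ k, B i k * E k := by
        rw [Finset.mul_sum]
        exact Finset.sum_congr rfl fun k _ => by ring
      rw [h1] at h
      exact mul_left_cancel₀ hp0 h
    have hcomm : ∀ u v, Z.tw b u * A u v = A u v * Z.tw b v := by
      intro u v
      have h := congrArg Z.rho g6
      rw [map_mul, map_mul, hUd, ← hA] at h
      have h' := congrFun (congrFun h u) v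
      rw [Matrix.diagonal_mul, Matrix.mul_diagonal] at h'
      exact h'
    have hAE : ∑ k, A l k * E k = 0 := by
      have h1 : Z.tw b l * ∑ k, A l k * E k = ∑ k, A l k * E k := by
        rw [Finset.mul_sum]
        refine Finset.sum_congr rfl fun k _ => ?_
        rw [← mul_assoc, hcomm]
        by_cases hk : E k = 0
        · rw [hk]; ring
        · rw [hEt k hk]; ring
      have h2 : (Z.tw b l - 1) * ∑ k, A l k * E k = 0 := by rw [sub_mul, h1]; ring
      rcases mul_eq_zero.mp h2 with h | h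
      · exact absurd (sub_eq_zero.mp h) hl
      · exact h
    have hSE : ∑ k, Z.rho Sm l k * E k = 0 := by
      have h1 : ∀ k, Z.rho Sm l k = ∑ v, A l v * B v k := by
        intro k
        rw [hSAB, Matrix.mul_apply]
      simp only [h1, Finset.sum_mul]
      rw [Finset.sum_comm]
      have h2 : ∀ v, ∑ k, A l v * B v k * E k = A l v * E v := by
        intro v
        have : ∑ k, A l v * B v k * E k = A l v * ∑ k, B v k * E k := by
          rw [Finset.mul_sum]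
          exact Finset.sum_congr rfl fun k _ => by ring
        rw [this, hBE]
      simp only [h2]
      exact hAE
    have h3 : ∑ k, E k * Cchi Z l k = (∑ k, Z.rho Sm l k * E k) / Z.rho Sm Z.o l := by
      rw [Finset.sum_div]
      refine Finset.sum_congr rfl fun k _ => ?_
      unfold Cchi
      rw [Z.s_symm k l]
      ring
    rw [h3, hSE, zero_div]

end Pool.Agent.Helper52.P2.XE
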