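import Pool.Agent.Helper52.P2.XA
import Pool.Agent.Helper52.P2.XB
import Pool.Agent.Helper52.P2.XC
import Pool.Agent.Helper52.P2.XE
import Pool.Agent.Helper45.AL.M_FCA

/-! # MP_2b6189_al: from the centre to the local data at a prime power exactly dividing `n` -/

set_option autoImplicit false

namespace Pool.Agent.Helper52.P2

open Matrix ComplexConjugate Pool.Agent.Helper94.YF Pool.Agent.Helper94.YG
open Pool.Agent.Helper89.OS hiding PD Cx Blk B0 Orb StXA StXB StXC StXE StCGR StISO StBLK StAMG StHEC StSTL StMZZ StDRE StTSU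
open Pool.Agent.Helper79.AL (StFCA)
open Pool.Agent.Helper89.P2 (PK)

/-- The integer vectors `y = P u` and `z = m u'`. -/
theorem yyzK (hF : StFUS) (hD : StDUA) (hInt : StINT) (hR : StRAT) (I : Type) [Fintype I]
    [DecidableEq I] (Z : CentreData I) (p a k P m : ℕ) (b : ZMod Z.L) (hp : p.Prime)
    (hI : Idp Z.L p a b) (hP : P = p ^ k) (hn : Z.n = P * m) (hpm : ¬ p ∣ m) :
    ∃ y z : I → ℤ, (∀ i, (y i : ℂ) = (P : ℂ) * Z.rho (s2 b) i Z.o) ∧
      ∀ i, (z i : ℂ) = (m : ℂ) * Z.rho (s2 (1 - b)) i Z.o := by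
  obtain ⟨L', hL, hpL, hLb⟩ := hI.ex
  have hb := hI.idem
  have hm0 : 0 < m := by
    rcases Nat.eq_zero_or_pos m with h | h
    · exact absurd (h ▸ dvd_zero p) hpm
    · exact h
  have hP0 : 0 < P := by rw [hP]; exact pow_pos hp.pos k
  have hcop : Nat.Coprime m (p ^ a) :=
    Nat.Coprime.pow_right a ((Nat.Prime.coprime_iff_not_dvd hp).2 hpm).symm
  have hcop' : Nat.Coprime P L' := by
    rw [hP]
    exact Nat.Coprime.pow_left k ((Nat.Prime.coprime_iff_not_dvd hp).2 hpL)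
  obtain ⟨M, hM⟩ := Pool.Agent.Helper75.OS.int_vec hInt hR Z b hb
  obtain ⟨y, hy⟩ := desc_all hF hD hR Z (p ^ a) b hb ⟨L', hL⟩ hI.ann P m hm0 hcop M (by
    intro i
    rw [hM i, hn])
  have hc : (1 - b) * (1 - b) = 1 - b := by linear_combination hb
  obtain ⟨M', hM'⟩ := Pool.Agent.Helper75.OS.int_vec hInt hR Z (1 - b) hc
  obtain ⟨z, hz⟩ := desc_all hF hD hR Z L' (1 - b) hc ⟨p ^ a, by rw [mul_comm]; exact hL⟩ hLb m P
    hP0 hcop' M' (by
      intro i
      rw [hM' i, hn, mul_comm P m])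
  exact ⟨y, z, hy, hz⟩

/-- A prime power `P = p ^ k` exactly dividing `n = P m` gives `p`-local data (parametric form). -/
theorem toPK0 (hIDP : StIDP) (hJTU : StJTU) (hAUT : StAUT) (hPRM : StPRM) (hXD : StXD)
    (hGRP : StGRP) (hENT : StENT)
    (hDUA : StDUA) (hFUS : StFUS) (hINT : StINT) (hNRM : StNRM) (hRAT : StRAT) (hFCA : StFCA)
    (I : Type) [Fintype I] [DecidableEq I] (Z : CentreData I) (p k P m : ℕ) (hp : p.Prime)
    (hk : 1 ≤ k) (hP : P = p ^ k) (hn : Z.n = P * m) (hpm : ¬ p ∣ m) :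
    ∃ (a : ℕ) (b : ZMod Z.L) (X : PK I p a P), Idp Z.L p a b ∧ X.k = k ∧
      X.o = Z.o ∧ X.st = Z.st ∧ X.d = Z.d ∧ X.m = m ∧ X.kap = Z.kap ∧ X.th = Z.th ∧
      X.t = Z.tw b ∧ (X.s = fun i k => (P : ℂ) * Z.rho (s2 b) i k) ∧ X.chi = Cchi Z ∧
      X.N = Z.N ∧ (∀ i, (X.z i : ℂ) = (m : ℂ) * Z.rho (s2 (1 - b)) i Z.o) := by
  obtain ⟨a, b, hI, ha1, -⟩ := hIDP Z.L p Z.L_pos hp
  have hpP : p ∣ P := by rw [hP]; exact dvd_pow_self p (by omega)
  have hpL : p ∣ Z.L := Z.cauchy p hp (by rw [hn]; exact Dvd.dvd.mul_right hpP m)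
  have ha : 1 ≤ a := ha1 hpL
  have hP0 : 0 < P := by rw [hP]; exact pow_pos hp.pos k
  have hm0 : 0 < m := by
    rcases Nat.eq_zero_or_pos m with h | h
    · exact absurd (h ▸ dvd_zero p) hpm
    · exact h
  obtain ⟨y, z, hy, hz⟩ := yyzK hFUS hDUA hINT hRAT I Z p a k P m b hp hI hP hn hpm
  obtain ⟨j, tu, hj, htu, htum⟩ := hJTU Z.L p a b hp hI
  choose Pi hPi using hPRM hAUT hDUA hFUS I Z.toCentreRep
  have hC : CxK Z p a P m b j tu Pi y z := ⟨hp, hP0, ha, hn, hI, hj, htu, htum, hPi, hy, hz⟩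
  have hPiS : ∀ c i k, Z.rho Sm (Pi c i) k = Z.rho Sm i (Pi c k) := by
    intro c
    obtain ⟨π, -, h1, -, -, h2, -⟩ := (hFCA I Z).perm c
    have h3 : ∀ i, Pi c i = π i := by
      intro i
      have h4 := hPi c i (π i)
      rw [h1 i (π i), if_pos rfl] at h4
      by_contra hne
      rw [if_neg (Ne.symm hne)] at h4
      exact one_ne_zero h4
    intro i k
    rw [h3, h3]
    exact h2 i k
  obtain ⟨a1, a2, a3, a4, a5, a6, a7, a8, a9, a10⟩ :=
    XA.hXA hFUS hDUA hNRM hRAT hGRP hENT I Z p a P m b j tu Pi y z hC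
  obtain ⟨b1, b2, b3, b4, b5⟩ := XB.hXB hFUS hDUA hGRP hENT I Z p a P m b j tu Pi y z hC
  obtain ⟨c1, c2, c3, c4, c5, c6, c7, c8, c9, c10, c11, c12⟩ :=
    XC.hXC hFUS hDUA hAUT hGRP hENT I Z p a P m b j tu Pi y z hC
  obtain ⟨e1, e2, e3, e4, e5, e6, -⟩ := XE.hXE hFUS hDUA hGRP hENT I Z p a P m b j tu Pi y z hC
  obtain ⟨d1, d2, d3, -⟩ := hDUA I Z.toCentreRep
  have hp0 : (P : ℂ) ≠ 0 := by exact_mod_cast hP0.ne'
  let X : PK I p a P :=
    { o := Z.o, st := Z.st, d := Z.d, m := m, kap := Z.kap, th := Z.th, t := Z.tw b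
      s := fun i k => (P : ℂ) * Z.rho (s2 b) i k, y := y, z := z, chi := Cchi Z, N := Z.N
      pi := fun c => Pi (tu c)
      k := k, k_pos := hk, P_eq := hP
      prime := hp, a_pos := ha, cop := hpm, m_pos := hm0
      st_st := d1, st_o := d2
      d_st := d3, t_st := a2, y_st := a1, d_pos := Z.d_pos, d_o := Z.d_o, d_dvd := a8
      t_pow := a3, t_o := a4, th_of := a5, kap_o := Z.kap_o, kap_t := a6, kap_y := a7
      s_symm := b1, s_o := fun i => (hy i).symm, s_int := b2, s_uni := b3, sd := b4, sz := b5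
      z_t := a10, z_dvd := a9
      pi_one := c1, pi_mul := c2, pi_o := c3, pi_d := c4, pi_y := c5, pi_z := c6, pi_t := c7
      pi_chi := fun c j k => by
        have h1 : Z.rho Sm Z.o (Pi (tu c) j) = Z.rho Sm Z.o j := by
          rw [← hPiS, c3]
        show Z.rho Sm k (Pi (tu c) j) / Z.rho Sm Z.o (Pi (tu c) j) =
          Z.rho Sm (Pi (tu c) k) j / Z.rho Sm Z.o j
        rw [h1, hPiS]
      pi_s := fun c i k => by simp only [c8 c i k]
      conj_s := fun i k => by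
        simp only [map_mul, c9 i k, Complex.conj_natCast]
      gal := fun σ => by
        obtain ⟨c, hc⟩ := c10 σ
        exact ⟨c, fun i k => by simp only [map_mul, map_natCast, hc i k]⟩
      weil0 := fun i k => by
        have h1 : ∑ l, (P : ℂ) * Z.rho (s2 b) i l * ((P : ℂ) * Z.rho (s2 b) l k) =
            (P : ℂ) ^ 2 * ∑ l, Z.rho (s2 b) i l * Z.rho (s2 b) l k := by
          rw [Finset.mul_sum]
          exact Finset.sum_congr rfl fun l _ => by ring
        rw [h1, c11 i k]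
        split_ifs <;> ring
      weil := fun w i k => by
        have h1 : ∑ l, Z.tw b l ^ (w : ZMod (p ^ a)).val * ((P : ℂ) * Z.rho (s2 b) i l *
            ((P : ℂ) * Z.rho (s2 b) l k)) = (P : ℂ) ^ 2 * ∑ l,
            Z.tw b l ^ (w : ZMod (p ^ a)).val * (Z.rho (s2 b) i l * Z.rho (s2 b) l k) := by
          rw [Finset.mul_sum]
          exact Finset.sum_congr rfl fun l _ => by ring
        rw [h1, c12 w i k]
        ring
      ex := by
        obtain ⟨k, hk1, hk2⟩ := hXD hFUS hDUA I Z.toCentreRep p a b hp ha hI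
        refine ⟨k, ?_, hk2⟩
        intro h0
        apply hk1
        have := hy k
        rw [h0] at this
        push_cast at this
        rcases mul_eq_zero.1 this.symm with h | h
        · exact absurd h hp0
        · exact h
      chi_int := e1, chi_o := e2, o_chi := e3, chi_mul := e4, con := e5, nhat := e6 }
  exact ⟨a, b, X, hI, rfl, rfl, rfl, rfl, rfl, rfl, rfl, rfl, rfl, rfl, rfl, hz⟩

/-- A prime power `P = p ^ k` exactly dividing `n = P m` gives `p`-local data. -/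
theorem toPK (I : Type) [Fintype I] [DecidableEq I] (Z : CentreData I) (p k P m : ℕ) (hp : p.Prime)
    (hk : 1 ≤ k) (hP : P = p ^ k) (hn : Z.n = P * m) (hpm : ¬ p ∣ m) :
    ∃ (a : ℕ) (b : ZMod Z.L) (X : PK I p a P), Idp Z.L p a b ∧ X.k = k ∧
      X.o = Z.o ∧ X.st = Z.st ∧ X.d = Z.d ∧ X.m = m ∧ X.kap = Z.kap ∧ X.th = Z.th ∧
      X.t = Z.tw b ∧ (X.s = fun i k => (P : ℂ) * Z.rho (s2 b) i k) ∧ X.chi = Cchi Z ∧
      X.N = Z.N ∧ (∀ i, (X.z i : ℂ) = (m : ℂ) * Z.rho (s2 (1 - b)) i Z.o) :=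
  toPK0 Helper58.OS.hIDP Helper24.OS.hJTU Helper90.OS.hAUT Helper36.OS.hPRM Helper53.OS.hXD
    Helper19.OS.hGRP Helper33.OS.hENT
    Helper88.YF.hDUA Helper36.YF.hFUS Helper95.YF.hINT Helper2.YF.hNRM hRAT' Helper45.AL.hFCA
    I Z p k P m hp hk hP hn hpm

end Pool.Agent.Helper52.P2
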