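import Pool.Agent.Helper52.P2.CxK

/-! # Project OS (MP_2b6189_al), module XA: duality, twists, divisibility, the Lagrangian algebra -/

set_option autoImplicit false

namespace Pool.Agent.Helper52.P2.XA

open Matrix ComplexConjugate Pool.Agent.Helper94.YF Pool.Agent.Helper94.YG
open Pool.Agent.Helper89.OS hiding PD Cx Blk B0 Orb StXA StXB StXC StXE StCGR StISO StBLK StAMG StHEC StSTL StMZZ StDRE StTSU
open Pool.Agent.Helper52.P2

private theorem dvd_aux (hR : ∀ q : ℚ, IsIntegral ℤ (q : ℂ) → ∃ m : ℤ, (m : ℚ) = q)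
    (A : ℤ) (d : ℕ) (hd : 0 < d) (h : IsIntegral ℤ (((A : ℂ) / (d : ℂ)) ^ 2)) : (d : ℤ) ∣ A := by
  have h1 : IsIntegral ℤ ((A : ℂ) / (d : ℂ)) := IsIntegral.of_pow (by norm_num) h
  have h2 : (((A : ℚ) / (d : ℚ) : ℚ) : ℂ) = (A : ℂ) / (d : ℂ) := by push_cast; rfl
  rw [← h2] at h1
  obtain ⟨m, hm⟩ := hR _ h1
  refine ⟨m, ?_⟩
  have hd' : (d : ℚ) ≠ 0 := by exact_mod_cast hd.ne'
  have h3 : (A : ℚ) = (d : ℚ) * (m : ℚ) := by
    rw [hm]
    field_simp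
  exact_mod_cast h3

private theorem tw_mul_nat {I : Type} [Fintype I] [DecidableEq I] (Z : CentreRep I)
    (h3 : ∀ x y i, Z.tw (x + y) i = Z.tw x i * Z.tw y i) (h4 : ∀ i, Z.tw 0 i = 1)
    (b : ZMod Z.L) (i : I) (k : ℕ) : Z.tw ((k : ZMod Z.L) * b) i = Z.tw b i ^ k := by
  induction k with
  | zero => simp [h4]
  | succ k ih =>
    rw [Nat.cast_succ, add_mul, one_mul, h3, ih, pow_succ]

/-- module `XA` for `P` -/
def StXA : Prop := StFUS → StDUA → StNRM → StRAT → StGRP → StENT →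
  ∀ (I : Type) [Fintype I] [DecidableEq I] (Z : CentreData I) (p a P m : ℕ) (b : ZMod Z.L)
  (j : ZMod (p ^ a) → ZMod Z.L) (tu : (ZMod (p ^ a))ˣ → (ZMod Z.L)ˣ) (Pi : (ZMod Z.L)ˣ → I → I)
  (y z : I → ℤ), CxK Z p a P m b j tu Pi y z →
  (∀ i, y (Z.st i) = y i) ∧ (∀ i, Z.tw b (Z.st i) = Z.tw b i) ∧ (∀ i, Z.tw b i ^ (p ^ a) = 1) ∧
  Z.tw b Z.o = 1 ∧ (∀ i, y i ≠ 0 → Z.tw b i = 1 → Z.th i = 1) ∧
  (∀ i, Z.kap i ≠ 0 → Z.tw b i = 1) ∧ (∑ i, y i * (Z.kap i : ℤ) = P) ∧ (∀ i, Z.d i ∣ P * m) ∧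
  (∀ i, (Z.d i : ℤ) ∣ P * z i) ∧ (∀ i, z i ≠ 0 → Z.tw b i = 1)

/-- **OS MODULE XA.** -/
theorem hXA : StXA := by
  intro hFUS hDUA hNRM hRAT hGRP hENT I _ _ Z p a P m b j tu Pi y z hC
  obtain ⟨f1, f2, f3, f4, f5, f6, f7, f8, f9, f10, f11⟩ := hFUS hDUA I Z.toCentreRep
  obtain ⟨d1, d2, d3, d4, d5, d6⟩ := hDUA I Z.toCentreRep
  obtain ⟨hRa, hRb⟩ := hRAT
  obtain ⟨g1, g2, g3, g4, g5, g6, g7, g8, g9, g10, g11, g12, g13⟩ :=
    hGRP Z.L (p ^ a) b j tu hC.idp.idem hC.jh hC.tu_val hC.tu_mul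
  obtain ⟨e1, e2⟩ := hENT hFUS hDUA I Z.toCentreRep b
  have hp0 : (P : ℂ) ≠ 0 := by exact_mod_cast hC.P_pos.ne'
  have hn0 : Z.n ≠ 0 := Z.n_pos.ne'
  have hm0 : m ≠ 0 := by
    rintro rfl
    exact hn0 (by rw [hC.n_eq, mul_zero])
  have hm0' : (m : ℂ) ≠ 0 := by exact_mod_cast hm0
  have hnC : (Z.n : ℂ) = (P : ℂ) * m := by rw [hC.n_eq]; push_cast; rfl
  -- commutation gives twist one
  have hcomm : ∀ (x c : ZMod Z.L), (U x * s2 c : SL Z.L) = s2 c * U x →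
      ∀ i, Z.rho (s2 c) i Z.o ≠ 0 → Z.tw x i = 1 := by
    intro x c hxc i hi
    have h := congrArg (fun M => Z.rho M i Z.o) hxc
    simp only [map_mul, f1, Matrix.diagonal_mul, Matrix.mul_diagonal, f6, mul_one] at h
    exact mul_right_cancel₀ hi (by rw [h, one_mul])
  refine ⟨?_, ?_, ?_, f6 b, ?_, ?_, ?_, ?_, ?_, ?_⟩
  · intro i
    have h1 : ((y (Z.st i) : ℤ) : ℂ) = (y i : ℂ) := by
      rw [hC.yy, hC.yy]
      have := d6 (s2 b) i Z.o
      rw [d2] at this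
      rw [this]
    exact_mod_cast h1
  · intro i
    unfold CentreRep.tw
    rw [d4]
  · intro i
    rw [← tw_mul_nat Z.toCentreRep f3 f4, hC.idp.ann, f4]
  · intro i hy ht
    have hu : Z.rho (s2 b) i Z.o ≠ 0 := by
      intro h0
      apply hy
      have := hC.yy i
      rw [h0, mul_zero] at this
      exact_mod_cast this
    have h1 := hcomm (1 - b) b g5 i hu
    rw [← f5 i, show (1 : ZMod Z.L) = b + (1 - b) by ring, f3, h1, ht, one_mul]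
  · intro i hi
    have h := Z.kap_inv (U b) i
    rw [f1] at h
    have h2 : ∑ j, (Matrix.diagonal (Z.tw b) : Matrix I I ℂ) i j * (Z.kap j : ℂ) =
        Z.tw b i * (Z.kap i : ℂ) := by
      rw [Finset.sum_eq_single i]
      · rw [Matrix.diagonal_apply_eq]
      · intro k _ hk
        rw [Matrix.diagonal_apply_ne _ (Ne.symm hk), zero_mul]
      · intro h
        exact absurd (Finset.mem_univ i) h
    rw [h2] at h
    have hk : (Z.kap i : ℂ) ≠ 0 := by exact_mod_cast hi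
    exact mul_right_cancel₀ hk (by rw [h, one_mul])
  · have h := Z.kap_inv (s2 b) Z.o
    have h1 : ((∑ i, y i * (Z.kap i : ℤ) : ℤ) : ℂ) = (P : ℂ) := by
      push_cast
      have h2 : ∀ i, ((y i : ℤ) : ℂ) * ((Z.kap i : ℕ) : ℂ) =
          (P : ℂ) * (Z.rho (s2 b) Z.o i * (Z.kap i : ℂ)) := by
        intro i
        rw [hC.yy i, e1 i Z.o]
        ring
      simp only [h2]
      rw [← Finset.mul_sum, h, Z.kap_o]
      simp
    exact_mod_cast h1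
  · intro i
    have h := hNRM I Z.toCentreRep 1 i i
    have hd0 : (Z.d i : ℂ) ≠ 0 := by exact_mod_cast (Z.d_pos i).ne'
    have h1 : (Z.n : ℂ) ^ 2 * (Z.rho 1 i i * conj (Z.rho 1 i i)) / (Z.d i : ℂ) ^ 2 =
        ((((P * m : ℕ) : ℤ) : ℂ) / ((Z.d i : ℕ) : ℂ)) ^ 2 := by
      rw [map_one, Matrix.one_apply_eq, map_one, hnC]
      push_cast
      field_simp
    rw [h1] at h
    have h2 := dvd_aux hRb _ _ (Z.d_pos i) h
    exact_mod_cast h2
  · intro i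
    have h := hNRM I Z.toCentreRep (s2 (1 - b)) i Z.o
    have hd0 : (Z.d i : ℂ) ≠ 0 := by exact_mod_cast (Z.d_pos i).ne'
    have hu : Z.rho (s2 (1 - b)) i Z.o = (z i : ℂ) / (m : ℂ) := by
      rw [hC.zz i]
      field_simp
    have h1 : (Z.n : ℂ) ^ 2 * (Z.rho (s2 (1 - b)) i Z.o * conj (Z.rho (s2 (1 - b)) i Z.o)) /
        (Z.d i : ℂ) ^ 2 = ((((P : ℤ) * z i : ℤ) : ℂ) / ((Z.d i : ℕ) : ℂ)) ^ 2 := by
      rw [hu, hnC, map_div₀]
      have e1 : conj (z i : ℂ) = (z i : ℂ) := by simp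
      have e2 : conj (m : ℂ) = (m : ℂ) := by simp
      rw [e1, e2]
      push_cast
      field_simp
    rw [h1] at h
    exact dvd_aux hRb _ _ (Z.d_pos i) h
  · intro i hz
    have hu : Z.rho (s2 (1 - b)) i Z.o ≠ 0 := by
      intro h0
      apply hz
      have := hC.zz i
      rw [h0, mul_zero] at this
      exact_mod_cast this
    exact hcomm b (1 - b) g6 i hu

end Pool.Agent.Helper52.P2.XA
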